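import Pool.Agent.U195.IR.Perf
import Pool.Agent.Results.MP_3554b5_lc.FunctionFields
import Pool.Agent.Results.MP_3554b5_lc.PlacesOfHigherDimension

/-!
# `NIP_n` fields have few valuations with imperfect residue fields and non-divisible value groups

Let `K` be a field (a pure field, in the language of rings) which is `NIP_n` for some `n`, or NIP, or
NTP2. The starting result `UnramifiedNorms` (of `MP_3554b5_lc`) says that among any `N` pairwise incomparable places of `K`
with real valuations there is one which is tame up to `D`: the value group is `d`-divisible or the
residue field has no SEPARABLE extension of degree `d`, for all `d ≤ D`. Nothing is said there about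
inseparable extensions of the residue field, for instance if the residue field is separably closed.

Here we show that one can take all irreducible polynomials instead (`IrrTame`): the value group is
`d`-divisible or there is no irreducible polynomial of degree `d`, separable or not, over the residue
field. In particular, if the residue field has characteristic `p ≤ D`, then the value group is
`p`-divisible or the residue field is perfect. The interesting case is that of fields `K` of
characteristic zero and valuations of mixed characteristic.

1. Among any `N` pairwise incomparable places with real valuations of `K`, or of a field elementarily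
   equivalent to `K`, there is one with `IrrTame`; `N` depends only on `D` and the theory of `K`.
2. If a residue field of a field elementarily equivalent to `K` is a finite extension of the fraction
   field of a Noetherian domain `A`, then `A` has fewer than `N` nonzero maximal ideals whose residue
   fields are imperfect of characteristic at most `D`.
3. The topology of every place of `K` with a real valuation which is not `IrrTame` is definable.
4. If a residue field `F` of a field elementarily equivalent to `K` is finitely generated and
   transcendental over a field `k`, then the transcendence degree is one and the algebraic closure of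
   `k` is a finite extension of `k`; so (Artin and Schreier) `k` is algebraically closed or real closed.
   In the starting result `FunctionFields` this is shown for the separable closure of `k`; the case of
   an imperfect separably closed field `k` was left open.

Proof. An irreducible polynomial over the residue field has a SEPARABLE lift over the valuation ring:
we add `t X` with small `t` if necessary. The lift defines a separable extension of degree `d` of the
completion with ramification index one, so that all values of norms are `d`-th powers. Hence the
completion has dimension greater than one, and the starting results `FewBadPlaces` (1) and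
`PlacesOfHigherDimension` (3) can be applied. For (2) and (4) we use the discrete valuations of the
starting results `NoetherianDomains` and `FunctionFields`, and that a finite extension of an imperfect
field is imperfect.
-/

set_option autoImplicit false

namespace Pool.Agent.Results.MP_829a8f_lc.ImperfectResidueFields

open Pool.Agent.W882.Nip3 Pool.Agent.N616.NH Pool.Agent.N616.NV Pool.Agent.TH686.NF NNReal
open Pool.Agent.Results.MP_3554b5_lc.UnramifiedNorms Pool.Agent.U195.IR

/-- Let `K` be a field which is NIP (the hypothesis of `S14569`), or `NIP_n` for some `n`, or `NTP2`. -/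
theorem result (K : Type) [Field K] [FirstOrder.Ring.CompatibleRing K]
    (hK : NIPField K ∨ (∃ n, NIPnField n K) ∨ NTP2Field K) :
    (∀ D : ℕ, ∃ N : ℕ, ∀ (K' : Type) [Field K'] [FirstOrder.Ring.CompatibleRing K'],
      FirstOrder.Language.ring.ElementarilyEquivalent K K' →
      -- (1) incomparable places
      (∀ P : Fin N → ValuedPlace K', (Pairwise fun i j => (P i).Incomparable (P j)) →
        ∃ i, IrrTame (P i) D) ∧
      -- (2) Noetherian domains
      ∀ (O : ValuationSubring K') (k : Type) [Field k] (π : O →+* k), Function.Surjective π →
        ∀ (A : Type) [CommRing A] [IsDomain A] [IsNoetherianRing A] [Algebra (FractionRing A) k]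
          [FiniteDimensional (FractionRing A) k],
          {𝔪 : Ideal A | 𝔪.IsMaximal ∧ 𝔪 ≠ ⊥ ∧ ∃ p : ℕ, p.Prime ∧ p ≤ D ∧ (p : A) ∈ 𝔪 ∧
            ∃ b : A, ∀ c : A, c ^ p - b ∉ 𝔪}.encard < N) ∧
    -- (3) definable topologies
    (∀ (P : ValuedPlace K) (D : ℕ), ¬ IrrTame P D →
      ∃ (U : Set K) (ε : ℝ), DfS U ∧ 0 < ε ∧
        (∀ (x : K) (h : x ∈ P.O), (P.v (P.π ⟨x, h⟩) : ℝ) ≤ ε → x ∈ U) ∧
        ∀ x ∈ U, ∃ h : x ∈ P.O, (P.v (P.π ⟨x, h⟩) : ℝ) ≤ 1 / ε) ∧
    -- (4) function fields
    ∀ (K' : Type) [Field K'] [FirstOrder.Ring.CompatibleRing K'],
      FirstOrder.Language.ring.ElementarilyEquivalent K K' →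
      ∀ (O : ValuationSubring K') (F : Type) [Field F] (π : O →+* F), Function.Surjective π →
      ∀ (k : Type) [Field k] [Algebra k F], (⊤ : IntermediateField k F).FG →
        FiniteDimensional k F ∨
          (Algebra.trdeg k F = 1 ∧ FiniteDimensional k (AlgebraicClosure k)) := by
  refine ⟨fun D => ?_, fun P D hP => ?_, ?_⟩
  · obtain ⟨N, hN⟩ := bound K hK D
    refine ⟨N, fun K' _ _ hKK' => ⟨hN K' hKK', fun O k _ π hπ A _ _ _ _ _ => ?_⟩⟩
    obtain ⟨N₃, hN₃⟩ := (Pool.Agent.Results.MP_3554b5_lc.UnramifiedNorms.result K hK).1 3
    have hdim : ringKrullDim A ≤ 1 := Pool.Agent.Y562.NN.dim_le_one N₃ k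
      (Pool.Agent.Y562.NN.tame_of_residue 3 N₃ K' (hN₃ K' hKK').1 O k π hπ) A
    exact noeth_irr D N k (bound_residue D N K' (hN K' hKK') O k π hπ) A hdim
  · have hgt := exists_gt P hP
    obtain ⟨U, ε, h1, h2, h3, h4⟩ := (Pool.Agent.Results.MP_3554b5_lc.PlacesOfHigherDimension.result K hK).1 (toPlace P hgt) D
      (fun a b => (ultra P.v).norm_add_le_max a b) (not_dimLe_place P hP)
    refine ⟨U, ε, h1, h2, fun x h hx => h3 x h ?_, fun x hx => ?_⟩
    · change ‖emb P.v (P.π ⟨x, h⟩)‖ ≤ ε
      rw [norm_emb]
      exact hx
    · obtain ⟨h, h5⟩ := h4 x hx
      refine ⟨h, ?_⟩
      change ‖emb P.v (P.π ⟨x, h⟩)‖ ≤ 1 / ε at h5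
      rw [norm_emb] at h5
      exact h5
  · intro K' _ _ hKK' O F _ π hπ k _ _ hfg
    rcases Pool.Agent.Results.MP_3554b5_lc.FunctionFields.result K hK K' hKK' O F π hπ k hfg with h | ⟨h1, h2⟩
    · exact Or.inl h
    · right
      refine ⟨h1, ?_⟩
      have hperf : PerfectField k := perfect_of_trdeg_one k F hfg h1 (fun D => by
        obtain ⟨N, hN⟩ := bound K hK D
        exact ⟨N, bound_residue D N K' (hN K' hKK') O F π hπ⟩)
      have hsep : Algebra.IsSeparable k (AlgebraicClosure k) := inferInstance
      have htop : separableClosure k (AlgebraicClosure k) = ⊤ :=
        (separableClosure.eq_top_iff _ _).2 hsep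
      have h3 : FiniteDimensional k (⊤ : IntermediateField k (AlgebraicClosure k)) := by
        rw [← htop]
        exact h2
      exact Module.Finite.equiv (IntermediateField.topEquiv
        (F := k) (E := AlgebraicClosure k)).toLinearEquiv

end Pool.Agent.Results.MP_829a8f_lc.ImperfectResidueFields
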